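import Mathlib

set_option autoImplicit false
set_option linter.unusedSectionVars false

namespace Pool.Agent.Results.MP_fe24f9_co.ForestThreshold

open Finset

section defs

variable {V : Type} [Fintype V] [DecidableEq V] (G : SimpleGraph V) [DecidableRel G.Adj]

/-- The degree of `v` in the subgraph of `G` induced on `S`. -/
def dg (S : Finset V) (v : V) : ℕ := #{w ∈ S | G.Adj v w}

/-- The maximum degree of the subgraph of `G` induced on `S`. -/
def maxDg (S : Finset V) : ℕ := S.sup (dg G S)

/-- `B` is a good deletion set: in `H = G - B`, at least two vertices have degree `Δ(H)`, or `H` has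
fewer than two vertices. -/
def Good (B : Finset V) : Prop :=
  2 ≤ #{v ∈ Bᶜ | dg G Bᶜ v = maxDg G Bᶜ} ∨ #Bᶜ < 2

/-- `f(G)`: the least size of a good deletion set. -/
noncomputable def f : ℕ := sInf {k | ∃ B : Finset V, #B = k ∧ Good G B}

/-- The threshold `N(t)`. -/
def N (t : ℕ) : ℚ := ((t : ℚ) ^ 3 + 6 * (t : ℚ) ^ 2 + 17 * t + 12) / 6

/-- `S` has at least two vertices and a unique vertex of maximum degree. -/
def Bad (S : Finset V) : Prop :=
  2 ≤ #S ∧ ∃ v ∈ S, ∀ w ∈ S, w ≠ v → dg G S w < dg G S v

/-- Sum of degrees in `S`. -/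
def D (S : Finset V) : ℕ := ∑ v ∈ S, dg G S v

/-- The extremal degrees. -/
def a : ℕ → ℕ
  | 0 => 2
  | t + 1 => a t + (t + 2)

/-- The extremal numbers of edges. -/
def M : ℕ → ℕ
  | 0 => 2
  | t + 1 => M t + a (t + 1)

theorem two_mul_a (t : ℕ) : 2 * a t = (t + 1) * (t + 2) + 2 := by
  induction t with
  | zero => rfl
  | succ t ih => simp only [a]; ring_nf; ring_nf at ih; omega

theorem six_mul_M (t : ℕ) : 6 * M t = t ^ 3 + 6 * t ^ 2 + 17 * t + 12 := by
  induction t with
  | zero => rfl
  | succ t ih =>
    have h := two_mul_a (t + 1)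
    simp only [M]
    ring_nf
    ring_nf at ih h
    omega

theorem N_eq (t : ℕ) : N t = M t := by
  have h := six_mul_M t
  have h' : (6 : ℚ) * (M t : ℚ) = (t : ℚ) ^ 3 + 6 * (t : ℚ) ^ 2 + 17 * t + 12 := by
    exact_mod_cast h
  unfold N
  linarith

variable {G}

theorem dg_mono {S T : Finset V} (h : S ⊆ T) (v : V) : dg G S v ≤ dg G T v :=
  card_le_card (filter_subset_filter _ h)

theorem dg_erase_add (S : Finset V) (u v : V) (hu : u ∈ S) :
    dg G S v = dg G (S.erase u) v + if G.Adj v u then 1 else 0 := by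
  unfold dg
  have he : ({w ∈ S.erase u | G.Adj v w} : Finset V) = ({w ∈ S | G.Adj v w} : Finset V).erase u := by
    ext x; simp only [mem_filter, mem_erase]; tauto
  rw [he]
  split_ifs with h
  · rw [card_erase_add_one (mem_filter.mpr ⟨hu, h⟩)]
  · rw [erase_eq_of_notMem (fun h' => h (mem_filter.mp h').2), add_zero]

theorem D_erase (S : Finset V) (u : V) (hu : u ∈ S) :
    D G S = D G (S.erase u) + 2 * dg G S u := by
  unfold D
  rw [← add_sum_erase S _ hu]
  have h1 : ∑ v ∈ S.erase u, dg G S v = ∑ v ∈ S.erase u, dg G (S.erase u) v +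
      ∑ v ∈ S.erase u, if G.Adj v u then 1 else 0 := by
    rw [← sum_add_distrib]
    exact sum_congr rfl fun v _ => dg_erase_add S u v hu
  have h2 : (∑ v ∈ S.erase u, if G.Adj v u then 1 else 0) = dg G S u := by
    rw [sum_boole]
    unfold dg
    simp only [Nat.cast_id]
    congr 1
    ext v
    simp only [mem_filter, mem_erase]
    constructor
    · rintro ⟨⟨_, h⟩, h'⟩; exact ⟨h, h'.symm⟩
    · rintro ⟨h, h'⟩; exact ⟨⟨h'.ne', h⟩, h'.symm⟩
  rw [h1, h2]; ring

/-- In a forest, at most one neighbour of `v` is `w` or adjacent to `w`. -/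
theorem common (hG : G.IsAcyclic) {v w x y : V} (hvw : v ≠ w) (hx : G.Adj v x) (hy : G.Adj v y)
    (hx' : x = w ∨ G.Adj x w) (hy' : y = w ∨ G.Adj y w) : x = y := by
  rcases hx' with rfl | hx' <;> rcases hy' with rfl | hy'
  · rfl
  · exfalso
    have p1 : (SimpleGraph.Walk.cons hx SimpleGraph.Walk.nil).IsPath := by
      simp [hvw]
    have p2 : (SimpleGraph.Walk.cons hy (SimpleGraph.Walk.cons hy' SimpleGraph.Walk.nil)).IsPath := by
      simp [hvw, hy'.ne, hy.ne]
    have h := (hG.subsingleton_path _ _).elim ⟨_, p1⟩ ⟨_, p2⟩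
    have h2 := congrArg (fun p : G.Path v x => p.1.length) h
    simp at h2
  · exfalso
    have p1 : (SimpleGraph.Walk.cons hy SimpleGraph.Walk.nil).IsPath := by
      simp [hvw]
    have p2 : (SimpleGraph.Walk.cons hx (SimpleGraph.Walk.cons hx' SimpleGraph.Walk.nil)).IsPath := by
      simp [hvw, hx'.ne, hx.ne]
    have h := (hG.subsingleton_path _ _).elim ⟨_, p1⟩ ⟨_, p2⟩
    have h2 := congrArg (fun p : G.Path v y => p.1.length) h
    simp at h2
  · have p1 : (SimpleGraph.Walk.cons hx (SimpleGraph.Walk.cons hx' SimpleGraph.Walk.nil)).IsPath := by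
      simp [hvw, hx'.ne, hx.ne]
    have p2 : (SimpleGraph.Walk.cons hy (SimpleGraph.Walk.cons hy' SimpleGraph.Walk.nil)).IsPath := by
      simp [hvw, hy'.ne, hy.ne]
    have h := (hG.subsingleton_path _ _).elim ⟨_, p1⟩ ⟨_, p2⟩
    have h2 := congrArg (fun p : G.Path v w => p.1.snd) h
    simpa using h2

theorem two_le_a (t : ℕ) : 2 ≤ a t := by
  induction t with
  | zero => exact le_refl 2
  | succ t ih => simp only [a]; omega

theorem main (hG : G.IsAcyclic) (t : ℕ) : ∀ S : Finset V,
    (∀ C ⊆ S, #C ≤ t → Bad G (S \ C)) → (∃ v ∈ S, a t ≤ dg G S v) ∧ 2 * M t ≤ D G S := by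
  induction t with
  | zero =>
    intro S hS
    have h0 := hS ∅ (empty_subset _) (by simp)
    rw [sdiff_empty] at h0
    obtain ⟨hc, v, hv, hmax⟩ := h0
    have h2 : 2 ≤ dg G S v := by
      by_contra hlt
      obtain ⟨w, hw, hwv⟩ := exists_mem_ne hc v
      have h3 := hmax w hw hwv
      have h4 : 0 < dg G S v := by omega
      obtain ⟨x, hx⟩ := card_pos.mp h4
      rw [mem_filter] at hx
      have h5 := hmax x hx.1 hx.2.ne'
      have h6 : 0 < dg G S x := card_pos.mpr ⟨v, mem_filter.mpr ⟨hv, hx.2.symm⟩⟩
      omega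
    refine ⟨⟨v, hv, h2⟩, ?_⟩
    rw [D_erase S v hv]
    simp only [M]
    omega
  | succ t ih =>
    intro S hS
    have h0 := hS ∅ (empty_subset _) (by simp)
    rw [sdiff_empty] at h0
    obtain ⟨hc, v, hv, hmax⟩ := h0
    have hS' : ∀ C ⊆ S.erase v, #C ≤ t → Bad G (S.erase v \ C) := by
      intro C hC hCt
      have h1 : S.erase v \ C = S \ insert v C := by
        ext x; simp only [mem_sdiff, mem_erase, mem_insert]; tauto
      rw [h1]
      apply hS
      · intro x hx
        rw [mem_insert] at hx
        rcases hx with rfl | hx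
        · exact hv
        · exact mem_of_mem_erase (hC hx)
      · exact (card_insert_le _ _).trans (by omega)
    obtain ⟨⟨u, hu, hau⟩, hD⟩ := ih _ hS'
    obtain ⟨w, hw, hwmax⟩ := exists_max_image (S.erase v) (dg G S) ⟨u, hu⟩
    have hwS : w ∈ S := mem_of_mem_erase hw
    have hwv : w ≠ v := ne_of_mem_erase hw
    have h2 : a t ≤ dg G S w := hau.trans ((dg_mono (erase_subset _ _) u).trans (hwmax u hu))
    have h3 := hmax w hwS hwv
    have h4 := two_le_a t
    have key : dg G S w + (t + 2) ≤ dg G S v := by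
      by_contra hlt
      -- private neighbours
      set P : Finset V := {x ∈ S | G.Adj v x ∧ x ≠ w ∧ ¬ G.Adj x w} with hP
      have hPc : dg G S v ≤ #P + 1 := by
        have h5 : #({x ∈ S | G.Adj v x} \ P) ≤ 1 := by
          rw [card_le_one]
          intro x hx y hy
          simp only [hP, mem_sdiff, mem_filter, not_and, not_not] at hx hy
          apply common hG hwv.symm hx.1.2 hy.1.2
          · by_cases h : x = w
            · exact Or.inl h
            · exact Or.inr (hx.2 hx.1.1 hx.1.2 h)
          · by_cases h : y = w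
            · exact Or.inl h
            · exact Or.inr (hy.2 hy.1.1 hy.1.2 h)
        have h6 : #{x ∈ S | G.Adj v x} ≤ #({x ∈ S | G.Adj v x} \ P) + #P := by
          have := card_le_card (s := {x ∈ S | G.Adj v x}) (t := ({x ∈ S | G.Adj v x} \ P) ∪ P)
            (by intro x hx; by_cases h : x ∈ P <;> simp_all)
          exact this.trans (card_union_le _ _)
        unfold dg; omega
      have hk : dg G S v - dg G S w ≤ #P := by omega
      obtain ⟨C, hCP, hCc⟩ := exists_subset_card_eq hk
      have hCS : C ⊆ S := fun x hx => (mem_filter.mp (hCP hx)).1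
      have hbad := hS C hCS (by omega)
      obtain ⟨-, z, hz, hzmax⟩ := hbad
      have hvC : v ∈ S \ C := by
        rw [mem_sdiff]
        exact ⟨hv, fun h => (mem_filter.mp (hCP h)).2.1.ne rfl⟩
      have hwC : w ∈ S \ C := by
        rw [mem_sdiff]
        exact ⟨hwS, fun h => (mem_filter.mp (hCP h)).2.2.1 rfl⟩
      have hdv : dg G (S \ C) v = dg G S w := by
        have h7 : ({x ∈ S \ C | G.Adj v x} : Finset V) = {x ∈ S | G.Adj v x} \ C := by
          ext x; simp only [mem_filter, mem_sdiff]; tauto
        have h8 : C ⊆ {x ∈ S | G.Adj v x} := fun x hx => by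
          have := mem_filter.mp (hCP hx)
          exact mem_filter.mpr ⟨this.1, this.2.1⟩
        have h9 : dg G (S \ C) v = dg G S v - #C := by
          unfold dg; rw [h7, card_sdiff_of_subset h8]
        omega
      have hdw : dg G (S \ C) w = dg G S w := by
        unfold dg
        congr 1
        ext x
        simp only [mem_filter, mem_sdiff]
        constructor
        · rintro ⟨⟨h, -⟩, h'⟩; exact ⟨h, h'⟩
        · rintro ⟨h, h'⟩
          exact ⟨⟨h, fun hx => (mem_filter.mp (hCP hx)).2.2.2 h'.symm⟩, h'⟩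
      by_cases hzv : z = v
      · subst hzv
        have := hzmax w hwC hwv
        omega
      · have h10 := hzmax v hvC (Ne.symm hzv)
        have h11 : dg G (S \ C) z ≤ dg G S z := dg_mono sdiff_subset z
        have h12 := hwmax z (mem_erase.mpr ⟨hzv, (mem_sdiff.mp hz).1⟩)
        omega
    refine ⟨⟨v, hv, by simp only [a]; omega⟩, ?_⟩
    rw [D_erase S v hv]
    simp only [M, a]
    omega

theorem D_univ_le [Nonempty V] (hG : G.IsAcyclic) : D G univ + 2 ≤ 2 * Fintype.card V := by
  classical
  obtain ⟨T, hGT, hT⟩ := SimpleGraph.exists_maximal_isAcyclic_of_le_isAcyclic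
    (le_top : G ≤ ⊤) hG
  have hT' : T.IsTree := by
    have : Maximal SimpleGraph.IsAcyclic T := by
      refine ⟨hT.prop.2, fun H hH hle => hT.le_of_ge ⟨le_top, hH⟩ hle⟩
    exact SimpleGraph.maximal_isAcyclic_iff_isTree.mp this
  have h1 := hT'.card_edgeFinset
  have h2 : #G.edgeFinset ≤ #T.edgeFinset := card_le_card (SimpleGraph.edgeFinset_mono hGT)
  have h3 : D G univ = 2 * #G.edgeFinset := by
    rw [← G.sum_degrees_eq_twice_card_edges]
    unfold D dg
    refine sum_congr rfl fun v _ => ?_
    rw [← SimpleGraph.card_neighborFinset_eq_degree]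
    congr 1
    ext w; simp
  omega

theorem bad_of_not_good {B : Finset V} (h : ¬ Good G B) : Bad G Bᶜ := by
  unfold Good at h
  push Not at h
  obtain ⟨h1, h2⟩ := h
  refine ⟨h2, ?_⟩
  have hne : (Bᶜ).Nonempty := card_pos.mp (by omega)
  obtain ⟨v, hv, hvmax⟩ := exists_max_image Bᶜ (dg G Bᶜ) hne
  have hveq : dg G Bᶜ v = maxDg G Bᶜ :=
    le_antisymm (le_sup (f := dg G Bᶜ) hv) (Finset.sup_le hvmax)
  refine ⟨v, hv, fun w hw hwv => ?_⟩
  refine lt_of_le_of_ne (hvmax w hw) fun heq => ?_
  have : ({v, w} : Finset V) ⊆ {v ∈ Bᶜ | dg G Bᶜ v = maxDg G Bᶜ} := by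
    intro x hx
    rw [mem_insert, mem_singleton] at hx
    rcases hx with rfl | rfl
    · exact mem_filter.mpr ⟨hv, hveq⟩
    · exact mem_filter.mpr ⟨hw, heq.trans hveq⟩
  have h3 := card_le_card this
  rw [card_pair (Ne.symm hwv)] at h3
  omega

theorem not_good_of_bad {B : Finset V} (h : Bad G Bᶜ) : ¬ Good G B := by
  obtain ⟨h1, v, hv, hmax⟩ := h
  unfold Good
  push Not
  refine ⟨?_, h1⟩
  have : ({v ∈ Bᶜ | dg G Bᶜ v = maxDg G Bᶜ} : Finset V) ⊆ {v} := by
    intro x hx
    rw [mem_filter] at hx
    rw [mem_singleton]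
    by_contra hxv
    have h2 := hmax x hx.1 hxv
    have h3 : dg G Bᶜ v ≤ maxDg G Bᶜ := le_sup (f := dg G Bᶜ) hv
    omega
  have := card_le_card this
  rw [card_singleton] at this
  omega

theorem upper (hG : G.IsAcyclic) (t : ℕ) (hn : Fintype.card V ≤ M t) : f G ≤ t := by
  by_contra hlt
  push Not at hlt
  have hall : ∀ B : Finset V, #B ≤ t → ¬ Good G B := by
    intro B hB hgood
    have : f G ≤ #B := Nat.sInf_le ⟨B, rfl, hgood⟩
    omega
  have h1 := main hG t univ (by
    intro C _ hC
    have := bad_of_not_good (hall C hC)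
    rwa [compl_eq_univ_sdiff] at this)
  obtain ⟨⟨v, -, -⟩, h2⟩ := h1
  have : Nonempty V := ⟨v⟩
  have h3 := D_univ_le hG
  omega

theorem lower (t : ℕ) (h : ∀ B : Finset V, #B ≤ t → Bad G Bᶜ) : t + 1 ≤ f G := by
  by_contra hlt
  push Not at hlt
  have hne : {k | ∃ B : Finset V, #B = k ∧ Good G B}.Nonempty :=
    ⟨_, univ, rfl, Or.inr (by simp)⟩
  obtain ⟨B, hB, hgood⟩ := Nat.sInf_mem hne
  exact not_good_of_bad (h B (by unfold f at hlt; omega)) hgood

end defs

section construction

/-- The vertices of the spider: a root and, for each `i ≤ t`, a centre with `a (t - i) - 1`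
leaves. -/
abbrev Sp (t : ℕ) : Type := Option (Σ i : Fin (t + 1), Fin (a i))

/-- The parent of a vertex. -/
def par (t : ℕ) : Sp t → Sp t
  | none => none
  | some ⟨i, j⟩ => if j.1 = 0 then none else some ⟨i, ⟨0, by have := two_le_a i; omega⟩⟩

/-- The spider. -/
def spider (t : ℕ) : SimpleGraph (Sp t) where
  Adj x y := x ≠ y ∧ (par t x = y ∨ par t y = x)
  symm := ⟨fun _ _ h => ⟨h.1.symm, h.2.symm⟩⟩
  loopless := ⟨fun _ h => h.1 rfl⟩

instance (t : ℕ) : DecidableRel (spider t).Adj := fun x y => by
  unfold spider; infer_instance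

theorem sum_a (t : ℕ) : ∑ i : Fin (t + 1), a i = M t := by
  induction t with
  | zero => rfl
  | succ t ih =>
    rw [Fin.sum_univ_castSucc]
    simp only [Fin.val_castSucc, Fin.val_last, M]
    rw [ih]

theorem card_Sp (t : ℕ) : Fintype.card (Sp t) = M t + 1 := by
  simp [Sp, sum_a]

/-- The centre number `i`. -/
def ctr {t : ℕ} (i : Fin (t + 1)) : Sp t := some ⟨i, ⟨0, by have := two_le_a i; omega⟩⟩

theorem par_ctr {t : ℕ} (i : Fin (t + 1)) : par t (ctr i) = none := by
  simp [par, ctr]

theorem par_leaf {t : ℕ} (i : Fin (t + 1)) (j : Fin (a i)) (hj : j.1 ≠ 0) :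
    par t (some ⟨i, j⟩) = ctr i := by
  simp [par, ctr, hj]

theorem eq_ctr {t : ℕ} (i : Fin (t + 1)) (j : Fin (a i)) (hj : j.1 = 0) :
    (some ⟨i, j⟩ : Sp t) = ctr i := by
  have : j = ⟨0, by have := two_le_a i; omega⟩ := Fin.ext hj
  rw [this]; rfl

theorem ctr_injective {t : ℕ} : Function.Injective (ctr (t := t)) := by
  intro i j h
  simp only [ctr, Option.some.injEq, Sigma.mk.injEq] at h
  exact h.1

/-- The neighbours of a centre. -/
def nbMap {t : ℕ} (i : Fin (t + 1)) (j : Fin (a i)) : Sp t := if j.1 = 0 then none else some ⟨i, j⟩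

theorem nbMap_injective {t : ℕ} (i : Fin (t + 1)) : Function.Injective (nbMap i) := by
  intro j k h
  unfold nbMap at h
  split_ifs at h with h1 h2 h2
  · exact Fin.ext (by omega)
  · simpa using h

theorem adj_ctr {t : ℕ} (i : Fin (t + 1)) (x : Sp t) :
    (spider t).Adj (ctr i) x ↔ ∃ j, nbMap i j = x := by
  constructor
  · rintro ⟨hne, h | h⟩
    · rw [par_ctr] at h
      exact ⟨⟨0, by have := two_le_a i; omega⟩, by simpa [nbMap] using h⟩
    · rcases x with _ | ⟨k, l⟩
      · exact absurd h (by simp [par, ctr])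
      · by_cases hl : l.1 = 0
        · rw [eq_ctr k l hl, par_ctr] at h
          exact absurd h (by simp [ctr])
        · rw [par_leaf k l hl] at h
          have := ctr_injective h
          subst this
          exact ⟨l, by simp [nbMap, hl]⟩
  · rintro ⟨j, rfl⟩
    unfold nbMap
    split_ifs with h
    · exact ⟨by simp [ctr], Or.inl (par_ctr i)⟩
    · refine ⟨?_, Or.inr (par_leaf i j h)⟩
      intro h'
      simp only [ctr, Option.some.injEq, Sigma.mk.injEq, heq_eq_eq, true_and] at h'
      exact h (by rw [← h'])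

theorem adj_none {t : ℕ} (x : Sp t) (h : (spider t).Adj none x) : ∃ i, x = ctr i := by
  obtain ⟨hne, h | h⟩ := h
  · exact absurd h hne
  · rcases x with _ | ⟨k, l⟩
    · exact absurd rfl hne
    · by_cases hl : l.1 = 0
      · exact ⟨k, eq_ctr k l hl⟩
      · rw [par_leaf k l hl] at h
        exact absurd h (by simp [ctr])

theorem adj_leaf {t : ℕ} (i : Fin (t + 1)) (j : Fin (a i)) (hj : j.1 ≠ 0) (x : Sp t)
    (h : (spider t).Adj (some ⟨i, j⟩) x) : x = ctr i := by
  obtain ⟨hne, h | h⟩ := h
  · rw [← h, par_leaf i j hj]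
  · rcases x with _ | ⟨k, l⟩
    · exact absurd h (by simp [par])
    · by_cases hl : l.1 = 0
      · rw [eq_ctr k l hl, par_ctr] at h
        exact absurd h (by simp)
      · rw [par_leaf k l hl] at h
        have h2 : i = k ∧ j.1 = 0 := by
          simp only [ctr, Option.some.injEq, Sigma.mk.injEq] at h
          obtain ⟨h3, h4⟩ := h
          subst h3
          exact ⟨rfl, by rw [← eq_of_heq h4]⟩
        exact absurd h2.2 hj

theorem dg_ctr_eq {t : ℕ} (i : Fin (t + 1)) (S : Finset (Sp t)) :
    dg (spider t) S (ctr i) = #(S ∩ univ.image (nbMap i)) := by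
  unfold dg
  congr 1
  ext x
  simp only [mem_filter, mem_inter, mem_image, mem_univ, true_and, adj_ctr]

theorem card_nb {t : ℕ} (i : Fin (t + 1)) : #(univ.image (nbMap i)) = a i := by
  rw [card_image_of_injective _ (nbMap_injective i)]; simp

theorem spider_acyclic (t : ℕ) : (spider t).IsAcyclic := by
  have hadj1 : ∀ i : Fin (t + 1), (spider t).Adj none (ctr i) :=
    fun i => ⟨by simp [ctr], Or.inr (par_ctr i)⟩
  have hreach : ∀ x, (spider t).Reachable none x := by
    intro x
    rcases x with _ | ⟨i, j⟩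
    · exact SimpleGraph.Reachable.refl _
    · by_cases hj : j.1 = 0
      · rw [eq_ctr i j hj]; exact (hadj1 i).reachable
      · refine (hadj1 i).reachable.trans ?_
        apply SimpleGraph.Adj.reachable
        rw [adj_ctr]
        exact ⟨j, by simp [nbMap, hj]⟩
  have hconn : (spider t).Connected := by
    rw [SimpleGraph.connected_iff_exists_forall_reachable]
    exact ⟨none, hreach⟩
  have hcard : Nat.card (spider t).edgeSet + 1 = Nat.card (Sp t) := by
    apply le_antisymm
    · rw [Nat.card_eq_fintype_card, Nat.card_eq_fintype_card, ← SimpleGraph.edgeFinset_card,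
        card_Sp]
      have h1 : (spider t).edgeFinset ⊆ (univ.erase (none : Sp t)).image fun x => s(x, par t x) := by
        intro e
        induction e using Sym2.ind with
        | h x y =>
          intro h
          rw [SimpleGraph.mem_edgeFinset, SimpleGraph.mem_edgeSet] at h
          obtain ⟨hne, h | h⟩ := h
          · refine mem_image.mpr ⟨x, mem_erase.mpr ⟨?_, mem_univ _⟩, by rw [h]⟩
            rintro rfl
            exact hne h
          · refine mem_image.mpr ⟨y, mem_erase.mpr ⟨?_, mem_univ _⟩, by rw [h, Sym2.eq_swap]⟩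
            rintro rfl
            exact hne h.symm
      have h2 := card_le_card h1
      have h3 := card_image_le (s := univ.erase (none : Sp t)) (f := fun x => s(x, par t x))
      rw [card_erase_of_mem (mem_univ _), card_univ, card_Sp] at h3
      exact Nat.succ_le_succ (h2.trans h3)
    · exact hconn.card_vert_le_card_edgeSet_add_one
  exact (SimpleGraph.isTree_iff_connected_and_card.mpr ⟨hconn, hcard⟩).isAcyclic

theorem a_mono {i j : ℕ} (h : j < i) : a j + (i + 1) ≤ a i := by
  induction i with
  | zero => omega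
  | succ i ih =>
    rcases Nat.lt_succ_iff_lt_or_eq.mp h with h' | rfl
    · have := ih h'
      simp only [a]; omega
    · simp only [a]; omega

theorem lin_le_a (i : ℕ) : 2 * i + 2 ≤ a i := by
  have h1 := two_mul_a i
  rcases i with _ | i
  · exact le_refl 2
  · nlinarith

theorem lin_le_M (t : ℕ) : t + 1 ≤ M t := by
  induction t with
  | zero => simp [M]
  | succ t ih => have := two_le_a (t + 1); simp only [M]; omega

theorem spider_bad (t : ℕ) (B : Finset (Sp t)) (hB : #B ≤ t) : Bad (spider t) Bᶜ := by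
  have hc : #Bᶜ + #B = M t + 1 := by
    rw [card_compl, card_Sp]
    have := card_le_univ B
    rw [card_Sp] at this
    omega
  have hM := lin_le_M t
  refine ⟨by omega, ?_⟩
  -- a surviving centre with the largest index
  have hex : ({i : Fin (t + 1) | ctr i ∉ B} : Finset _).Nonempty := by
    by_contra h
    rw [not_nonempty_iff_eq_empty, filter_eq_empty_iff] at h
    have h1 : (univ : Finset (Fin (t + 1))).image ctr ⊆ B := by
      intro x hx
      obtain ⟨i, -, rfl⟩ := mem_image.mp hx
      have := h (mem_univ i)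
      push Not at this
      exact this
    have h2 := card_le_card h1
    rw [card_image_of_injective _ ctr_injective] at h2
    simp at h2
    omega
  obtain ⟨i, hi, himax⟩ := exists_max_image _ id hex
  simp only [mem_filter, mem_univ, true_and, id_eq] at hi himax
  have hgt : ∀ j : Fin (t + 1), i < j → ctr j ∈ B := by
    intro j hj
    by_contra h
    exact absurd (himax j h) (not_le.mpr hj)
  have hit := i.2
  -- few deletions around the centre
  have hfew : #(B ∩ univ.image (nbMap i)) ≤ i := by
    have h1 : #((Ioi i).image ctr) + #(B ∩ univ.image (nbMap i)) ≤ #B := by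
      rw [← card_union_of_disjoint]
      · apply card_le_card
        intro x hx
        rw [mem_union] at hx
        rcases hx with hx | hx
        · obtain ⟨j, hj, rfl⟩ := mem_image.mp hx
          exact hgt j (mem_Ioi.mp hj)
        · exact (mem_inter.mp hx).1
      · rw [disjoint_left]
        intro x hx hx'
        obtain ⟨j, hj, rfl⟩ := mem_image.mp hx
        obtain ⟨k, -, hk⟩ := mem_image.mp (mem_inter.mp hx').2
        unfold nbMap at hk
        split_ifs at hk with h
        · exact absurd hk (by simp [ctr])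
        · simp only [ctr, Option.some.injEq, Sigma.mk.injEq] at hk
          obtain ⟨h3, h4⟩ := hk
          subst h3
          exact h (by rw [eq_of_heq h4])
    rw [card_image_of_injective _ ctr_injective, Fin.card_Ioi] at h1
    omega
  have hlow : a i ≤ dg (spider t) Bᶜ (ctr i) + i := by
    rw [dg_ctr_eq]
    have h0 := card_nb i
    have h1 : #(univ.image (nbMap i)) ≤ #(Bᶜ ∩ univ.image (nbMap i)) +
        #(B ∩ univ.image (nbMap i)) := by
      rw [← card_union_of_disjoint]
      · apply card_le_card
        intro x hx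
        simp only [mem_union, mem_inter, mem_compl]
        tauto
      · rw [disjoint_left]
        intro x hx hx'
        simp only [mem_inter, mem_compl] at hx hx'
        exact hx.1 hx'.1
    omega
  have hlin := lin_le_a i
  refine ⟨ctr i, mem_compl.mpr hi, fun w hw hwi => ?_⟩
  rcases w with _ | ⟨j, l⟩
  · have h1 : dg (spider t) Bᶜ none ≤ i + 1 := by
      have h2 : ({w ∈ Bᶜ | (spider t).Adj none w} : Finset _) ⊆ (Iic i).image ctr := by
        intro x hx
        rw [mem_filter, mem_compl] at hx
        obtain ⟨j, rfl⟩ := adj_none x hx.2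
        refine mem_image.mpr ⟨j, mem_Iic.mpr ?_, rfl⟩
        by_contra hj
        exact hx.1 (hgt j (not_le.mp hj))
      have h3 := card_le_card h2
      rw [card_image_of_injective _ ctr_injective, Fin.card_Iic] at h3
      exact h3
    omega
  · by_cases hl : l.1 = 0
    · rw [eq_ctr j l hl] at hw hwi ⊢
      have hji : j < i := by
        rcases lt_trichotomy j i with h | h | h
        · exact h
        · exact absurd (by rw [h]) hwi
        · exact absurd (hgt j h) (mem_compl.mp hw)
      have h1 : dg (spider t) Bᶜ (ctr j) ≤ a j := by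
        rw [dg_ctr_eq]
        exact (card_le_card inter_subset_right).trans (card_nb j).le
      have h2 := a_mono (i := i.1) (j := j.1) hji
      omega
    · have h1 : dg (spider t) Bᶜ (some ⟨j, l⟩) ≤ 1 := by
        have h2 : ({w ∈ Bᶜ | (spider t).Adj (some ⟨j, l⟩) w} : Finset _) ⊆ {ctr j} := by
          intro x hx
          rw [mem_singleton]
          exact adj_leaf j l hl x (mem_filter.mp hx).2
        exact card_le_card h2
      omega

end construction

theorem result : ∀ t : ℕ, 1 ≤ t →
    (∀ (V : Type) [Fintype V] [DecidableEq V] (F : SimpleGraph V) [DecidableRel F.Adj],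
      F.IsAcyclic → (Fintype.card V : ℚ) ≤ N t → f F ≤ t) ∧
    ∃ (V : Type) (_ : Fintype V) (_ : DecidableEq V) (F : SimpleGraph V) (_ : DecidableRel F.Adj),
      F.IsAcyclic ∧ (Fintype.card V : ℚ) = N t + 1 ∧ t + 1 ≤ f F := by
  intro t _
  constructor
  · intro V _ _ F _ hF hn
    rw [N_eq] at hn
    exact upper hF t (by exact_mod_cast hn)
  · refine ⟨Sp t, inferInstance, inferInstance, spider t, inferInstance, spider_acyclic t, ?_, ?_⟩
    · rw [N_eq, card_Sp]; push_cast; ring
    · exact lower t (spider_bad t)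

end Pool.Agent.Results.MP_fe24f9_co.ForestThreshold
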